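import Mathlib
import Pool.Agent.W56.FD

set_option autoImplicit false

/-!
# Fermat numbers in the family `⌊β 2 ^ (2 ^ m)⌋ + 1`

`F_m` is the member with `β = 1`, and for `m ≥ 2` all its prime factors exceed `2 ^ (m + 2)`.
We compute the exact asymptotics, as `M → ∞`, of the Lebesgue measure of the set of multipliers `β`
for which the part of `⌊β 2 ^ (2 ^ m)⌋ + 1` made of the prime factors exceeding `2 ^ (m + 2)` is a
prime for at least one `m ≥ M`.
-/

namespace Pool.Agent.Results.MP_37e5fa_nt.MultiplierLaw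

open Filter Topology MeasureTheory

/-- The product, with multiplicity, of the prime factors of `n` exceeding `z`. -/
def rough (z n : ℕ) : ℕ := (n.primeFactorsList.filter (fun r => z < r)).prod

lemma rough_eq_self {z m : ℕ} (hm : m ≠ 0) (h : ∀ q : ℕ, q.Prime → q ∣ m → z < q) :
    rough z m = m := by
  unfold rough
  have h2 : m.primeFactorsList.filter (fun r => z < r) = m.primeFactorsList := by
    rw [List.filter_eq_self]
    intro r hr
    exact decide_eq_true (h r (Nat.prime_of_mem_primeFactorsList hr)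
      (Nat.dvd_of_mem_primeFactorsList hr))
  rw [h2]
  exact Nat.prod_primeFactorsList hm

theorem result :
    (∀ m : ℕ, 2 ≤ m → rough (2 ^ (m + 2)) (⌊(1 : ℝ) * 2 ^ (2 ^ m)⌋₊ + 1) = Nat.fermatNumber m) ∧
    ∀ a b : ℝ, 0 < a → a < b →
      Tendsto (fun M : ℕ => (volume {β : ℝ | β ∈ Set.Ioc a b ∧ ∃ m : ℕ, M ≤ m ∧
        (rough (2 ^ (m + 2)) (⌊β * 2 ^ (2 ^ m)⌋₊ + 1)).Prime}).toReal * (2 ^ M / M)) atTop
        (𝓝 (2 * Real.exp Real.eulerMascheroniConstant * (b - a))) := by
  refine ⟨fun m hm => ?_, fun a b ha hab => ?_⟩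
  · have e : ⌊(1 : ℝ) * 2 ^ (2 ^ m)⌋₊ + 1 = Nat.fermatNumber m := by
      rw [one_mul, Nat.fermatNumber]
      have : ((2 : ℝ) ^ (2 ^ m)) = ((2 ^ (2 ^ m) : ℕ) : ℝ) := by push_cast; rfl
      rw [this, Nat.floor_natCast]
    rw [e]
    refine rough_eq_self (by
      have := Nat.three_le_fermatNumber m
      omega) fun q hq hdvd => ?_
    obtain ⟨k, hk⟩ := Nat.fermat_primeFactors_one_lt m q (by omega) hq hdvd
    rcases Nat.eq_zero_or_pos k with h0 | hpos
    · rw [h0, zero_mul, zero_add] at hk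
      exact absurd hk hq.one_lt.ne'
    · rw [hk]
      have : 1 * 2 ^ (m + 2) ≤ k * 2 ^ (m + 2) := Nat.mul_le_mul_right _ hpos
      omega
  · exact Pool.Agent.W56.law_beta ha hab

end Pool.Agent.Results.MP_37e5fa_nt.MultiplierLaw
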