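import Mathlib
import Pool.Agent.W56.FD

set_option autoImplicit false

/-!
# Generalised Fermat numbers with real bases

For an even base `b` all prime factors of `b ^ (2 ^ m) + 1` exceed `2 ^ (m + 1)`; the Fermat numbers
are the case `b = 2`. We compute the exact asymptotics, as `M → ∞`, of the Lebesgue measure of the
set of real bases `α` for which the part of `⌊α ^ (2 ^ m)⌋ + 1` made of the prime factors exceeding
`2 ^ (m + 1)` is a prime for at least one `m ≥ M`.
-/

namespace Pool.Agent.Results.MP_37e5fa_nt.RealBaseLaw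

open Filter Topology MeasureTheory

/-- The product, with multiplicity, of the prime factors of `n` exceeding `z`. -/
def rough (z n : ℕ) : ℕ := (n.primeFactorsList.filter (fun r => z < r)).prod

lemma rough_eq_self {z m : ℕ} (hm : m ≠ 0) (h : ∀ q : ℕ, q.Prime → q ∣ m → z < q) :
    rough z m = m := by
  unfold rough
  have h2 : m.primeFactorsList.filter (fun r => z < r) = m.primeFactorsList := by
    rw [List.filter_eq_self]
    intro r hr
    exact decide_eq_true (h r (Nat.prime_of_mem_primeFactorsList hr)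
      (Nat.dvd_of_mem_primeFactorsList hr))
  rw [h2]
  exact Nat.prod_primeFactorsList hm

theorem result :
    (∀ b m : ℕ, Even b →
      rough (2 ^ (m + 1)) (⌊(b : ℝ) ^ (2 ^ m)⌋₊ + 1) = b ^ (2 ^ m) + 1) ∧
    ∀ a b : ℝ, 1 < a → a < b →
      Tendsto (fun M : ℕ => (volume {α : ℝ | α ∈ Set.Ioc a b ∧ ∃ m : ℕ, M ≤ m ∧
        (rough (2 ^ (m + 1)) (⌊α ^ (2 ^ m)⌋₊ + 1)).Prime}).toReal * (2 ^ M / M)) atTop
        (𝓝 (2 * Real.exp Real.eulerMascheroniConstant * Real.log 2 *
          ∫ x in a..b, 1 / Real.log x)) := by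
  refine ⟨fun b m hb => ?_, fun a b ha hab => ?_⟩
  · have e : ⌊(b : ℝ) ^ (2 ^ m)⌋₊ + 1 = b ^ (2 ^ m) + 1 := by
      have : ((b : ℝ) ^ (2 ^ m)) = ((b ^ (2 ^ m) : ℕ) : ℝ) := by push_cast; rfl
      rw [this, Nat.floor_natCast]
    rw [e]
    refine rough_eq_self (Nat.succ_ne_zero _) fun q hq hdvd => ?_
    have hq2 : q ≠ 2 := by
      rintro rfl
      have h1 : Even (b ^ (2 ^ m)) := hb.pow_of_ne_zero (by positivity)
      have h2 : Even (b ^ (2 ^ m) + 1) := (even_iff_two_dvd).2 hdvd
      exact (Nat.even_add_one.1 h2) h1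
    obtain ⟨k, hk⟩ := Nat.pow_pow_add_primeFactors_one_lt hq hq2 hdvd
    rcases Nat.eq_zero_or_pos k with h0 | hpos
    · rw [h0, zero_mul, zero_add] at hk
      exact absurd hk hq.one_lt.ne'
    · rw [hk]
      have : 1 * 2 ^ (m + 1) ≤ k * 2 ^ (m + 1) := Nat.mul_le_mul_right _ hpos
      omega
  · have h := Pool.Agent.W56.law_alpha ha hab
    simp only [one_div]
    exact h

end Pool.Agent.Results.MP_37e5fa_nt.RealBaseLaw
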