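import Mathlib
import Pool.Agent.W943.FL.F3

set_option autoImplicit false

/-!
# Fermat numbers in the 2-adic family `2 ^ (2 ^ m) + (α mod 2 ^ (2 ^ m))`

For a 2-adic integer `α` put `N m α = 2 ^ (2 ^ m) + (α mod 2 ^ (2 ^ m))`, the residue being taken
in `[0, 2 ^ (2 ^ m))`: the integers with `2 ^ m + 1` binary digits whose first digit is `1` and whose
other digits are the last `2 ^ m` digits of `α`.  The Fermat number `F_m` is the member `α = 1`.
We compute the exact asymptotics, as `M → ∞`, of the Haar measure of the set of `α`, in any given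
ball of 2-adic units, for which the part of `N m α` made of the prime factors exceeding `2 ^ m + 1`
is a prime for at least one `m ≥ M`.
-/

namespace Pool.Agent.Results.MP_37e5fa_nt.TwoAdicLaw

open Filter Topology MeasureTheory

/-- The product, with multiplicity, of the prime factors of `n` exceeding `z`. -/
def rough (z n : ℕ) : ℕ := (n.primeFactorsList.filter (fun r => z < r)).prod

/-- `2 ^ (2 ^ m)` plus the residue of the 2-adic integer `α` modulo `2 ^ (2 ^ m)`. -/
noncomputable def N (m : ℕ) (α : ℤ_[2]) : ℕ := 2 ^ (2 ^ m) + (PadicInt.toZModPow (2 ^ m) α).val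

lemma N_one (m : ℕ) : N m 1 = Nat.fermatNumber m := by
  have h1 : (1 : ℕ) < 2 ^ (2 ^ m) := Nat.one_lt_two_pow (by positivity)
  unfold N
  rw [map_one, Nat.fermatNumber]
  congr 1
  rw [ZMod.val_one_eq_one_mod, Nat.mod_eq_of_lt h1]

lemma rough_eq_self {z m : ℕ} (hm : m ≠ 0) (h : ∀ q : ℕ, q.Prime → q ∣ m → z < q) :
    rough z m = m := by
  unfold rough
  have h2 : m.primeFactorsList.filter (fun r => z < r) = m.primeFactorsList := by
    rw [List.filter_eq_self]
    intro r hr
    exact decide_eq_true (h r (Nat.prime_of_mem_primeFactorsList hr)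
      (Nat.dvd_of_mem_primeFactorsList hr))
  rw [h2]
  exact Nat.prod_primeFactorsList hm

lemma rough_fermat (m : ℕ) : rough (2 ^ m + 1) (Nat.fermatNumber m) = Nat.fermatNumber m := by
  refine rough_eq_self (by
    have := Nat.three_le_fermatNumber m
    omega) fun q hq hdvd => ?_
  rcases Nat.lt_or_ge 1 m with hm | hm
  · obtain ⟨k, hk⟩ := Nat.fermat_primeFactors_one_lt m q hm hq hdvd
    rcases Nat.eq_zero_or_pos k with h0 | hpos
    · rw [h0, zero_mul, zero_add] at hk
      exact absurd hk hq.one_lt.ne'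
    · rw [hk]
      have h1 : 1 * 2 ^ (m + 2) ≤ k * 2 ^ (m + 2) := Nat.mul_le_mul_right _ hpos
      have h2 : 2 ^ (m + 2) = 4 * 2 ^ m := by rw [pow_add]; ring
      have h3 : 0 < 2 ^ m := by positivity
      omega
  · have h5 : m = 0 ∨ m = 1 := by omega
    rcases h5 with rfl | rfl
    · have h6 : q = 3 := (Nat.prime_dvd_prime_iff_eq hq Nat.prime_three).1 (by
        simpa [Nat.fermatNumber] using hdvd)
      rw [h6]
      norm_num
    · have h6 : q = 5 := (Nat.prime_dvd_prime_iff_eq hq Nat.prime_five).1 (by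
        simpa [Nat.fermatNumber] using hdvd)
      rw [h6]
      norm_num

theorem result :
    (∀ m : ℕ, N m 1 = Nat.fermatNumber m ∧ rough (2 ^ m + 1) (N m 1) = Nat.fermatNumber m) ∧
    ∀ [MeasurableSpace ℤ_[2]] [BorelSpace ℤ_[2]] (μ : Measure ℤ_[2]) [μ.IsAddHaarMeasure]
      (c : ℤ_[2]) (k : ℕ), IsUnit c → 1 ≤ k →
      Tendsto (fun M : ℕ => (μ {α : ℤ_[2] | α ∈ Metric.closedBall c ((2 : ℝ) ^ (-(k : ℤ))) ∧
        ∃ m : ℕ, M ≤ m ∧ (rough (2 ^ m + 1) (N m α)).Prime}).toReal * (2 ^ M / M)) atTop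
        (𝓝 (2 * Real.exp Real.eulerMascheroniConstant *
          (μ (Metric.closedBall c ((2 : ℝ) ^ (-(k : ℤ))))).toReal)) := by
  refine ⟨fun m => ⟨N_one m, by rw [N_one]; exact rough_fermat m⟩, ?_⟩
  intro _ _ μ _ c k hc hk
  have hfull := Pool.Agent.W66L.full_padic 2 μ
  have hcop : (Pool.Agent.W66L.res 2 k c).Coprime 2 := by
    unfold Pool.Agent.W66L.res
    have h1 : IsUnit (PadicInt.toZModPow k c) := hc.map _
    have h2 := ZMod.isUnit_iff_coprime (PadicInt.toZModPow k c).val (2 ^ k)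
    rw [ZMod.natCast_zmod_val] at h2
    exact Nat.Coprime.coprime_dvd_right (dvd_pow_self 2 (by omega)) (h2.1 h1)
  have hlt : Pool.Agent.W66L.res 2 k c < 2 ^ k := hfull.lt le_rfl k c
  have h := Pool.Agent.W943.FL.law_full hfull hk hlt hcop
  have hball : Metric.closedBall c ((2 : ℝ) ^ (-(k : ℤ))) =
      {x | Pool.Agent.W66L.res 2 k x = Pool.Agent.W66L.res 2 k c} := by
    ext x
    rw [Metric.mem_closedBall, dist_eq_norm, Set.mem_setOf_eq]
    have h1 := PadicInt.norm_le_pow_iff_mem_span_pow (p := 2) (x - c) k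
    have h2 : (((2 : ℕ) : ℝ)) = 2 := by norm_num
    rw [h2] at h1
    rw [h1, ← PadicInt.ker_toZModPow, RingHom.mem_ker, map_sub, sub_eq_zero]
    unfold Pool.Agent.W66L.res
    constructor
    · intro h3; rw [h3]
    · intro h3; exact ZMod.val_injective _ h3
  have e1 : ∀ M : ℕ, (μ {α : ℤ_[2] | α ∈ Metric.closedBall c ((2 : ℝ) ^ (-(k : ℤ))) ∧
        ∃ m : ℕ, M ≤ m ∧ (rough (2 ^ m + 1) (N m α)).Prime}).toReal =
      μ.real (⋃ m ∈ Set.Ici M, Pool.Agent.W943.FL.EF (fun n α => Pool.Agent.W66L.res 2 n α) k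
        (Pool.Agent.W66L.res 2 k c) m) := by
    intro M
    rw [measureReal_def]
    congr 2
    ext α
    rw [hball]
    simp only [Set.mem_setOf_eq, Set.mem_iUnion, Set.mem_Ici, exists_prop,
      Pool.Agent.W943.FL.EF]
    constructor
    · rintro ⟨h1, m, h2, h3⟩
      exact ⟨m, h2, h1, h3⟩
    · rintro ⟨m, h2, h1, h3⟩
      exact ⟨h1, m, h2, h3⟩
  have e2 : 2 * Real.exp Real.eulerMascheroniConstant *
      (μ (Metric.closedBall c ((2 : ℝ) ^ (-(k : ℤ))))).toReal =
      2 * (Real.exp Real.eulerMascheroniConstant *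
        μ.real {x | Pool.Agent.W66L.res 2 k x = Pool.Agent.W66L.res 2 k c}) := by
    rw [hball, measureReal_def]
    ring
  rw [e2]
  exact h.congr fun M => by rw [e1 M]

end Pool.Agent.Results.MP_37e5fa_nt.TwoAdicLaw
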